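import Pool.Agent.K4H10.ZO.InsW
import Pool.Agent.K4H10.ZO.Half

/-!
# The counting lemmas of helper10 with uniform constants
-/

set_option autoImplicit false

namespace Pool.Agent.K4H35.ML

open Module Pool.Agent.K4H10.ZO Filter Topology

/-- Task A of helper10, with constants which depend only on the number of letters. -/
theorem taskAu (D : ℕ) (hDpos : 0 < D) (q : ℕ) (hq : 0 < q) (ε : ℝ)
    (hε : 0 < ε) (hε1 : ε < 1) :
    ∃ C κ : ℝ, 0 ≤ C ∧ 0 < κ ∧ κ < 1 ∧ ∀ (ι : Type) [Fintype ι] [DecidableEq ι] [Nonempty ι],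
      Fintype.card ι = D → ∀ (m : ℕ) (L : Finset (Fin m → ι)) (u : Fin q → ι)
      (T : Finset (Fin (m + q) → ι)),
      (∀ (p : Fin q ↪o Fin (m + q)) (c : Fin m ↪o Fin (m + q)), (∀ i j, p i ≠ c j) →
        ∀ w : Fin (m + q) → ι, w ∘ p = u → w ∘ c ∈ L → w ∈ T) →
      (1 - ε) * (D : ℝ) ^ q *
        ((L.card : ℝ) - C * κ ^ m * (D : ℝ) ^ m) ≤ (T.card : ℝ) := by
  have hD : (0 : ℝ) < D := by exact_mod_cast hDpos
  have hqR : (0 : ℝ) < q := by exact_mod_cast hq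
  set δ : ℝ := ε / q with hδd
  have hδ : 0 < δ := by positivity
  have hη := rate_pos (D := D) hDpos hδ
  set κ : ℝ := Real.exp (-(rate D δ) / q) with hκ
  have hκpos : 0 < κ := Real.exp_pos _
  have hκ1 : κ < 1 := by
    rw [hκ, Real.exp_lt_one_iff]
    exact div_neg_of_neg_of_pos (by linarith) hqR
  have h1ε : 0 < 1 - ε := by linarith
  set C : ℝ := q * D * (κ ^ q)⁻¹ / (1 - ε) with hC
  have hC0 : 0 ≤ C := by positivity
  refine ⟨C, κ, hC0, hκpos, hκ1, fun ι _ _ _ hcardι m L u T hT => ?_⟩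
  set l : ℕ := m / q with hl
  have hql : q * l ≤ m := Nat.mul_div_le m q
  obtain ⟨S, hS1, hS2⟩ := insert_all δ hδ m l L q hql u
  rw [hcardι] at hS2
  have hST : S ⊆ T := by
    intro w hw
    obtain ⟨p, c, hpc, hwp, hwc, _⟩ := hS1 w hw
    exact hT p c hpc w hwp hwc
  have hcard : (S.card : ℝ) ≤ T.card := by exact_mod_cast Finset.card_le_card hST
  refine le_trans ?_ (hS2.trans hcard)
  have hpow : 1 - ε ≤ (1 / (1 + δ)) ^ q := by
    have h1 : 1 - δ ≤ 1 / (1 + δ) := by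
      rw [le_div_iff₀ (by linarith)]
      nlinarith
    have h2 : δ ≤ 1 := by
      rw [hδd, div_le_one hqR]
      have : (1 : ℝ) ≤ q := by exact_mod_cast hq
      linarith
    have h3 : (1 - δ) ^ q ≤ (1 / (1 + δ)) ^ q := pow_le_pow_left₀ (by linarith) h1 q
    have h4 : 1 + (q : ℝ) * (-δ) ≤ (1 + (-δ)) ^ q := one_add_mul_le_pow (by linarith) q
    have h5 : (q : ℝ) * δ = ε := by
      rw [hδd]
      field_simp
    have h6 : (1 + -δ) ^ q = (1 - δ) ^ q := by ring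
    rw [h6] at h4
    linarith
  have hpow2 : (1 - ε) * (D : ℝ) ^ q ≤ ((D : ℝ) / (1 + δ)) ^ q := by
    have h1 : ((D : ℝ) / (1 + δ)) ^ q = (1 / (1 + δ)) ^ q * (D : ℝ) ^ q := by
      rw [← mul_pow]
      congr 1
      ring
    rw [h1]
    exact mul_le_mul_of_nonneg_right hpow (by positivity)
  have hX : Real.exp (-(rate D δ) * l) ≤ (κ ^ q)⁻¹ * κ ^ m := by
    have h1 : Real.exp (-(rate D δ) * l) = κ ^ (q * l) := by
      rw [hκ, ← Real.exp_nat_mul]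
      congr 1
      push_cast
      field_simp
    rw [h1]
    have h2 : m < q * l + q := by
      have h3 := Nat.div_add_mod m q
      have h4 := Nat.mod_lt m hq
      rw [← hl] at h3
      omega
    have h3 : κ ^ (q * l + q) ≤ κ ^ m := pow_le_pow_of_le_one hκpos.le hκ1.le h2.le
    rw [pow_add] at h3
    have h4 : 0 < κ ^ q := by positivity
    rw [inv_mul_eq_div, le_div_iff₀ h4]
    exact h3
  have hmain : (q : ℝ) * ((D : ℝ) ^ (m + q + 1) * Real.exp (-(rate D δ) * l)) ≤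
      (1 - ε) * (D : ℝ) ^ q * (C * κ ^ m * (D : ℝ) ^ m) := by
    have h1 : (1 - ε) * (D : ℝ) ^ q * (C * κ ^ m * (D : ℝ) ^ m) =
        q * ((D : ℝ) ^ (m + q + 1) * ((κ ^ q)⁻¹ * κ ^ m)) := by
      rw [hC]
      field_simp
      ring
    rw [h1]
    refine mul_le_mul_of_nonneg_left ?_ hqR.le
    exact mul_le_mul_of_nonneg_left hX (by positivity)
  have h9 : (1 - ε) * (D : ℝ) ^ q * (L.card : ℝ) ≤ ((D : ℝ) / (1 + δ)) ^ q * (L.card : ℝ) :=
    mul_le_mul_of_nonneg_right hpow2 (Nat.cast_nonneg _)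
  rw [mul_sub]
  linarith


/-- **Insertion.** If the products, with nonzero factors `s V`, of the elements of `U` and `Z` placed
at arbitrary positions lie in `R`, then the dimension of `R` is at least
`(1 - ε) D ^ q (dim U - C κ ^ m D ^ m)`. -/
theorem count_words_u (D : ℕ) (hD : 0 < D) (q : ℕ) (hq : 0 < q) (ε : ℝ) (hε : 0 < ε)
    (hε1 : ε < 1) :
    ∃ C κ : ℝ, 0 ≤ C ∧ 0 < κ ∧ κ < 1 ∧ ∀ (K : Type) [Field K] (ι : Type) [Fintype ι]
      [DecidableEq ι], Fintype.card ι = D → ∀ (m : ℕ) (U : Submodule K ((Fin m → ι) → K))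
      (Z : Submodule K ((Fin q → ι) → K)) (R : Submodule K ((Fin (m + q) → ι) → K)), Z ≠ ⊥ →
      (∀ (p : Fin q ↪o Fin (m + q)) (c : Fin m ↪o Fin (m + q)), (∀ i j, p i ≠ c j) →
        ∃ s : (Fin (m + q) → ι) → K, (∀ V, s V ≠ 0) ∧ ∀ x ∈ U, ∀ z ∈ Z,
          (fun V => s V * (x (V ∘ c) * z (V ∘ p))) ∈ R) →
      (1 - ε) * (D : ℝ) ^ q *
        ((finrank K U : ℝ) - C * κ ^ m * (D : ℝ) ^ m) ≤ (finrank K R : ℝ) := by
  classical
  obtain ⟨C, κ, hC, hκ, hκ1, hmain⟩ := taskAu D hD q hq ε hε hε1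
  refine ⟨C, κ, hC, hκ, hκ1, fun K _ ι _ _ hcardι m U Z R hZ hR => ?_⟩
  have _ : Nonempty ι := Fintype.card_pos_iff.1 (by omega)
  obtain ⟨z, hz, hz0⟩ := Submodule.exists_mem_ne_zero_of_ne_bot hZ
  let Bm := Pi.basisFun K (Fin m → ι)
  let Bq := Pi.basisFun K (Fin q → ι)
  let B := Pi.basisFun K (Fin (m + q) → ι)
  obtain ⟨u, hu, hu'⟩ := exists_lead Bq (wkey ι q) (wkey_injective q) hz0
  have h := hmain ι hcardι m (lead Bm (wkey ι m) U) u (lead B (wkey ι (m + q)) R) (by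
    intro p c hd w hw hw'
    obtain ⟨s, hs, hsR⟩ := hR p c hd
    obtain ⟨x, hx, hx0, hx1⟩ := mem_lead.mp hw'
    refine mem_lead.mpr ⟨_, hsR x hx z hz, ?_, ?_⟩
    · change s w * (x (w ∘ c) * z (w ∘ p)) ≠ 0
      have h1 : x (w ∘ c) ≠ 0 := hx0
      have h2 : z (w ∘ p) ≠ 0 := by rw [hw]; exact hu
      exact mul_ne_zero (hs w) (mul_ne_zero h1 h2)
    · intro V hV
      change s V * (x (V ∘ c) * z (V ∘ p)) = 0
      obtain ⟨t, ht1, ht2⟩ := hV
      rcases exists_pos p.injective c.injective hd t with ⟨i, rfl⟩ | ⟨i, rfl⟩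
      · have h1 : x (V ∘ c) = 0 :=
          hx1 (V ∘ c) ⟨i, fun j hj => ht1 (c j) (c.strictMono hj), ht2⟩
        rw [h1, zero_mul, mul_zero]
      · have h1 : z (V ∘ p) = 0 := by
          apply hu' (V ∘ p)
          rw [← hw]
          exact ⟨i, fun j hj => ht1 (p j) (p.strictMono hj), ht2⟩
        rw [h1, mul_zero, mul_zero])
  rw [card_lead Bm (wkey ι m) (wkey_injective m) U,
    card_lead B (wkey ι (m + q)) (wkey_injective (m + q)) R] at h
  exact h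


/-- The same with the number of letters given up to an equality. -/
theorem count_words_u' (D : ℕ) (hD : 0 < D) (q : ℕ) (hq : 0 < q) (ε : ℝ) (hε : 0 < ε)
    (hε1 : ε < 1) :
    ∃ C κ : ℝ, 0 ≤ C ∧ 0 < κ ∧ κ < 1 ∧ ∀ (K : Type) [Field K] (ι : Type) [Fintype ι]
      [DecidableEq ι], Fintype.card ι = D → ∀ (m N : ℕ) (_ : N = m + q)
      (U : Submodule K ((Fin m → ι) → K))
      (Z : Submodule K ((Fin q → ι) → K)) (R : Submodule K ((Fin N → ι) → K)), Z ≠ ⊥ →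
      (∀ (p : Fin q ↪o Fin N) (c : Fin m ↪o Fin N), (∀ i j, p i ≠ c j) →
        ∃ s : (Fin N → ι) → K, (∀ V, s V ≠ 0) ∧ ∀ x ∈ U, ∀ z ∈ Z,
          (fun V => s V * (x (V ∘ c) * z (V ∘ p))) ∈ R) →
      (1 - ε) * (D : ℝ) ^ q *
        ((finrank K U : ℝ) - C * κ ^ m * (D : ℝ) ^ m) ≤ (finrank K R : ℝ) := by
  obtain ⟨C, κ, hC, hκ, hκ1, h⟩ := count_words_u D hD q hq ε hε hε1
  refine ⟨C, κ, hC, hκ, hκ1, ?_⟩
  rintro K _ ι _ _ hι m N rfl U Z R hZ hR
  exact h K ι hι m U Z R hZ hR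

/-- The analytic lemma of the majority law with a uniform bound. -/
theorem taskFu (D q : ℕ) (hD : 0 < D) (C κ C' κ' : ℝ → ℝ)
    (hC : ∀ δ, 0 < δ → δ < 1 → 0 ≤ C δ ∧ 0 < κ δ ∧ κ δ < 1)
    (hC' : ∀ δ, 0 < δ → δ < 1 → 0 ≤ C' δ ∧ 0 < κ' δ ∧ κ' δ < 1) (ε : ℝ) (hε : 0 < ε) :
    ∃ M : ℕ, ∀ a t : ℕ → ℕ, (∀ m, a m ≤ t m) → (∀ m, t m ≤ D ^ m) → (∀ m, 0 < a m) →
      (∀ k ≥ 1, D ^ (2 * k) ≤ a (2 * k) * (k + 1) ^ (D ^ 2)) →
      (∀ k ≥ 1, t (2 * k + 2) ^ 2 ≤ t (2 * k) * t (2 * k + 4)) →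
      (∀ m ≥ 1, a m ≤ a (m + 1)) →
      (∀ δ : ℝ, 0 < δ → δ < 1 → ∀ m ≥ 1,
        (1 - δ) * (D : ℝ) ^ q * ((a m : ℝ) - C δ * κ δ ^ m * (D : ℝ) ^ m) ≤
          (t (m + q) : ℝ) - a (m + q)) →
      (∀ δ : ℝ, 0 < δ → δ < 1 → ∀ m ≥ 1,
        (1 - δ) * (D : ℝ) ^ q * ((a m : ℝ) - C δ * κ δ ^ m * (D : ℝ) ^ m) ≤ (a (m + q) : ℝ)) →
      (∀ δ : ℝ, 0 < δ → δ < 1 → ∀ m ≥ 1,
        (1 - δ) * (D : ℝ) ^ 1 * ((t m : ℝ) - C' δ * κ' δ ^ m * (D : ℝ) ^ m) ≤
          (t (m + 1) : ℝ)) →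
      ∀ m ≥ M, (a m : ℝ) ≤ (1 / 2 + ε) * t m := by
  have hDR : (0 : ℝ) < D := by exact_mod_cast hD
  obtain ⟨δ, hδd⟩ : ∃ δ : ℝ, δ = ε / (3 * (1 + 2 * ε)) := ⟨_, rfl⟩
  have hδ : 0 < δ := by rw [hδd]; positivity
  have hδ6 : 6 * δ * (1 + 2 * ε) = 2 * ε := by
    rw [hδd]; field_simp; ring
  have hδ1 : 6 * δ < 1 := by
    have h : 6 * δ * (1 + 2 * ε) < 1 * (1 + 2 * ε) := by rw [hδ6]; linarith
    exact lt_of_mul_lt_mul_right h (by linarith)
  have s4' : ∀ C κ : ℝ, 0 ≤ C → 0 < κ → κ < 1 →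
      ∃ N : ℕ, 2 ≤ N ∧ ∀ m ≥ N, (C * D) * ((m : ℝ) ^ (D ^ 2) * κ ^ m) ≤ δ := by
    intro C κ hC hκ hκ1
    have hlim : Tendsto (fun m : ℕ => (C * D) * ((m : ℝ) ^ (D ^ 2) * κ ^ m)) atTop
        (𝓝 ((C * D) * 0)) :=
      (tendsto_pow_const_mul_const_pow_of_abs_lt_one (D ^ 2)
        (by rw [abs_of_pos hκ]; exact hκ1)).const_mul (C * D)
    rw [mul_zero] at hlim
    obtain ⟨N, hN⟩ := eventually_atTop.1 (hlim.eventually_lt_const hδ)
    exact ⟨max N 2, le_max_right _ _, fun m hm => (hN m (le_trans (le_max_left _ _) hm)).le⟩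
  obtain ⟨hC₁, hκ₁, hκ₁1⟩ := hC δ hδ (by linarith)
  obtain ⟨hC₃, hκ₃, hκ₃1⟩ := hC' δ hδ (by linarith)
  obtain ⟨N₁, hN₁2, hN₁⟩ := s4' _ _ hC₁ hκ₁ hκ₁1
  obtain ⟨m₀, hm₀2, hm₀'⟩ := s4' _ _ hC₃ hκ₃ hκ₃1
  refine ⟨max N₁ (m₀ + 3), ?_⟩
  intro a t h1 h2 h3 h4 h5 h6 h8 h9 h10
  have haR : ∀ m, (0 : ℝ) < a m := fun m => by exact_mod_cast h3 m
  have hatR : ∀ m, (a m : ℝ) ≤ t m := fun m => by exact_mod_cast h1 m
  have htR : ∀ m, (0 : ℝ) < t m := fun m => lt_of_lt_of_le (haR m) (hatR m)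
  have s2 := even_steps D hD t h2 (fun m => lt_of_lt_of_le (h3 m) (h1 m)) h5
  -- the growth of `a`
  have s3 : ∀ m, 2 ≤ m → (D : ℝ) ^ m ≤ D * a m * (m : ℝ) ^ (D ^ 2) := by
    intro m hm
    have hnat : D ^ m ≤ D * a m * m ^ (D ^ 2) := by
      rcases Nat.even_or_odd' m with ⟨k, rfl | rfl⟩
      · calc D ^ (2 * k) ≤ a (2 * k) * (k + 1) ^ (D ^ 2) := h4 k (by omega)
          _ ≤ (D * a (2 * k)) * (2 * k) ^ (D ^ 2) :=
            Nat.mul_le_mul (Nat.le_mul_of_pos_left _ hD) (Nat.pow_le_pow_left (by omega) _)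
      · calc D ^ (2 * k + 1) = D * D ^ (2 * k) := by ring
          _ ≤ D * (a (2 * k) * (k + 1) ^ (D ^ 2)) := Nat.mul_le_mul_left _ (h4 k (by omega))
          _ = (D * a (2 * k)) * (k + 1) ^ (D ^ 2) := by ring
          _ ≤ (D * a (2 * k + 1)) * (2 * k + 1) ^ (D ^ 2) :=
            Nat.mul_le_mul (Nat.mul_le_mul_left _ (h6 _ (by omega)))
              (Nat.pow_le_pow_left (by omega) _)
    exact_mod_cast hnat
  have s4 : ∀ (C κ : ℝ) (m : ℕ), 0 ≤ C → 0 < κ → 2 ≤ m →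
      (C * D) * ((m : ℝ) ^ (D ^ 2) * κ ^ m) ≤ δ → C * κ ^ m * (D : ℝ) ^ m ≤ δ * a m := by
    intro C κ m hC hκ hm2 hm
    calc C * κ ^ m * (D : ℝ) ^ m ≤ C * κ ^ m * (D * a m * (m : ℝ) ^ (D ^ 2)) :=
          mul_le_mul_of_nonneg_left (s3 m hm2) (by positivity)
      _ = (C * D) * ((m : ℝ) ^ (D ^ 2) * κ ^ m) * a m := by ring
      _ ≤ δ * a m := mul_le_mul_of_nonneg_right hm (haR m).le
  obtain ⟨c, hc⟩ : ∃ c : ℝ, c = (1 - δ) ^ 2 := ⟨_, rfl⟩
  have hc0 : 0 < c := by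
    rw [hc]
    have : 0 < 1 - δ := by linarith
    positivity
  have hc1 : c ≤ 1 := by rw [hc]; nlinarith
  -- the three estimates for large `m`
  have hgen : ∀ (x : ℝ) (e : ℝ) (b : ℕ → ℝ) (m : ℕ), (a m : ℝ) ≤ b m → 0 ≤ x →
      e ≤ δ * a m → c * x * b m ≤ (1 - δ) * x * (b m - e) := by
    intro x e b m hb hx he
    have h0 : e ≤ δ * b m := le_trans he (mul_le_mul_of_nonneg_left hb hδ.le)
    have h1 : 0 ≤ (1 - δ) * x := mul_nonneg (by linarith) hx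
    calc c * x * b m = (1 - δ) * x * (b m - δ * b m) := by rw [hc]; ring
      _ ≤ (1 - δ) * x * (b m - e) := mul_le_mul_of_nonneg_left (by linarith) h1
  have hm₀ : ∀ m, m₀ ≤ m → c * D * t m ≤ t (m + 1) := by
    intro m hmm
    have hm := s4 _ _ m hC₃ hκ₃ (by omega) (hm₀' m hmm)
    have h := hgen (D ^ 1) _ (fun m => (t m : ℝ)) m (hatR m) (by positivity) hm
    have h' := le_trans h (h10 δ hδ (by linarith) m (by omega))
    rwa [pow_one] at h'
  have e1 : ∀ m, N₁ ≤ m → c * (D : ℝ) ^ q * a m ≤ t (m + q) - a (m + q) := by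
    intro m hmm
    have hm := s4 _ _ m hC₁ hκ₁ (by omega) (hN₁ m hmm)
    exact le_trans (hgen (D ^ q) _ (fun m => (a m : ℝ)) m le_rfl (by positivity) hm)
      (h8 δ hδ (by linarith) m (by omega))
  have e2 : ∀ m, N₁ ≤ m → c * (D : ℝ) ^ q * a m ≤ a (m + q) := by
    intro m hmm
    have hm := s4 _ _ m hC₁ hκ₁ (by omega) (hN₁ m hmm)
    exact le_trans (hgen (D ^ q) _ (fun m => (a m : ℝ)) m le_rfl (by positivity) hm)
      (h9 δ hδ (by linarith) m (by omega))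
  -- the upper bound for `t (m + q)`
  have e4 : ∀ m, m₀ + 3 ≤ m → c ^ 2 * t (m + q) ≤ (D : ℝ) ^ q * t m := by
    intro m hm
    have hcc : ∀ x : ℝ, 0 ≤ x → c * x ≤ x := fun x hx => by
      calc c * x ≤ 1 * x := mul_le_mul_of_nonneg_right hc1 hx
        _ = x := one_mul x
    have g1 : c * D * t (m + q) ≤ t (m + q + 1) := hm₀ (m + q) (by omega)
    have g2 : c * D * t (m - 1) ≤ t m := by
      have := hm₀ (m - 1) (by omega)
      rwa [Nat.sub_add_cancel (by omega)] at this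
    have htq := htR (m + q)
    have htm := htR m
    rcases Nat.even_or_odd' m with ⟨k, hk | hk⟩
    · rcases Nat.even_or_odd' q with ⟨p, hp | hp⟩
      · have h := s2 p k (by omega)
        rw [← hk, ← hp] at h
        calc c ^ 2 * (t (m + q) : ℝ) = c * (c * t (m + q)) := by ring
          _ ≤ c * t (m + q) := hcc _ (by positivity)
          _ ≤ t (m + q) := hcc _ (by positivity)
          _ ≤ _ := h
      · have h := s2 (p + 1) k (by omega)
        rw [← hk, show m + 2 * (p + 1) = m + q + 1 by omega,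
          show 2 * (p + 1) = q + 1 by omega] at h
        have h' : D * (c * t (m + q)) ≤ D * ((D : ℝ) ^ q * t m) := by
          calc D * (c * t (m + q)) = c * D * t (m + q) := by ring
            _ ≤ (D : ℝ) ^ (q + 1) * t m := le_trans g1 h
            _ = D * ((D : ℝ) ^ q * t m) := by ring
        calc c ^ 2 * (t (m + q) : ℝ) = c * (c * t (m + q)) := by ring
          _ ≤ c * t (m + q) := hcc _ (by positivity)
          _ ≤ _ := le_of_mul_le_mul_left h' hDR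
    · rcases Nat.even_or_odd' q with ⟨p, hp | hp⟩
      · have h := s2 (p + 1) k (by omega)
        rw [show 2 * k + 2 * (p + 1) = m + q + 1 by omega,
          show 2 * (p + 1) = q + 2 by omega, show 2 * k = m - 1 by omega] at h
        have h' : (D : ℝ) ^ 2 * (c ^ 2 * t (m + q)) ≤ (D : ℝ) ^ 2 * ((D : ℝ) ^ q * t m) := by
          calc (D : ℝ) ^ 2 * (c ^ 2 * t (m + q)) = (c * D) * (c * D * t (m + q)) := by ring
            _ ≤ (c * D) * ((D : ℝ) ^ (q + 2) * t (m - 1)) :=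
              mul_le_mul_of_nonneg_left (le_trans g1 h) (by positivity)
            _ = (D : ℝ) ^ (q + 2) * (c * D * t (m - 1)) := by ring
            _ ≤ (D : ℝ) ^ (q + 2) * t m := mul_le_mul_of_nonneg_left g2 (by positivity)
            _ = (D : ℝ) ^ 2 * ((D : ℝ) ^ q * t m) := by ring
        exact le_of_mul_le_mul_left h' (by positivity)
      · have h := s2 (p + 1) k (by omega)
        rw [show 2 * k + 2 * (p + 1) = m + q by omega,
          show 2 * (p + 1) = q + 1 by omega, show 2 * k = m - 1 by omega] at h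
        have h' : D * (c * t (m + q)) ≤ D * ((D : ℝ) ^ q * t m) := by
          calc D * (c * t (m + q)) = (c * D) * t (m + q) := by ring
            _ ≤ (c * D) * ((D : ℝ) ^ (q + 1) * t (m - 1)) :=
              mul_le_mul_of_nonneg_left h (by positivity)
            _ = (D : ℝ) ^ (q + 1) * (c * D * t (m - 1)) := by ring
            _ ≤ (D : ℝ) ^ (q + 1) * t m := mul_le_mul_of_nonneg_left g2 (by positivity)
            _ = D * ((D : ℝ) ^ q * t m) := by ring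
        calc c ^ 2 * (t (m + q) : ℝ) = c * (c * t (m + q)) := by ring
          _ ≤ c * t (m + q) := hcc _ (by positivity)
          _ ≤ _ := le_of_mul_le_mul_left h' hDR
  have hc3 : 1 ≤ (1 + 2 * ε) * c ^ 3 := by
    have hb : 1 - 6 * δ ≤ (1 - δ) ^ 6 := by
      have := one_add_mul_le_pow (a := -δ) (by linarith) 6
      have e : (1 + -δ) ^ 6 = (1 - δ) ^ 6 := by ring
      rw [e] at this
      push_cast at this
      linarith
    have hcb : c ^ 3 = (1 - δ) ^ 6 := by rw [hc]; ring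
    rw [hcb]
    calc (1 : ℝ) = (1 + 2 * ε) * (1 - 6 * δ) := by linarith [hδ6]
      _ ≤ (1 + 2 * ε) * (1 - δ) ^ 6 := mul_le_mul_of_nonneg_left hb (by linarith)
  intro m hmM
  have g1 := e1 m (le_trans (le_max_left _ _) hmM)
  have g2 := e2 m (le_trans (le_max_left _ _) hmM)
  have hm : m₀ + 3 ≤ m := le_trans (le_max_right _ _) hmM
  have g3 := e4 m hm
  have g4 : (D : ℝ) ^ q * (2 * c ^ 3 * a m) ≤ (D : ℝ) ^ q * t m := by
    calc (D : ℝ) ^ q * (2 * c ^ 3 * a m)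
        = c ^ 2 * (c * (D : ℝ) ^ q * a m + c * (D : ℝ) ^ q * a m) := by ring
      _ ≤ c ^ 2 * t (m + q) := mul_le_mul_of_nonneg_left (by linarith) (by positivity)
      _ ≤ _ := g3
  have g5 : 2 * c ^ 3 * a m ≤ t m := le_of_mul_le_mul_left g4 (by positivity)
  calc (a m : ℝ) = 1 * a m := (one_mul _).symm
    _ ≤ ((1 + 2 * ε) * c ^ 3) * a m := mul_le_mul_of_nonneg_right hc3 (haR m).le
    _ = (1 / 2 + ε) * (2 * c ^ 3 * a m) := by ring
    _ ≤ (1 / 2 + ε) * t m := mul_le_mul_of_nonneg_left g5 (by linarith)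


end Pool.Agent.K4H35.ML
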