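import Pool.Agent.K4H10.ZO.HalfPL
import Pool.Agent.K4H35.ML.Unif

/-!
# The majority law for systems of tensors, with a uniform bound
-/

set_option autoImplicit false

namespace Pool.Agent.K4H35.ML

open Module Matrix Pool.Agent.K4H54.PL Pool.Agent.K4H10.ZO

/-- **The majority law for systems of tensors, uniform version.** -/
theorem half_u (D n : ℕ) (ε : ℝ) (hε : 0 < ε) : ∃ M : ℕ, ∀ (k : Type) [Field k] (ι : Type)
    [Fintype ι] [DecidableEq ι], Fintype.card ι = D → ∀ (H H' B B' : ∀ m, Submodule k (T k ι m)),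
    (∀ m, B m ≤ H m) →
    (∀ m, ∀ φ ∈ H' m, (∀ x ∈ H m, φ ⬝ᵥ x = 0) → φ = 0) →
    (∀ m, ∀ x ∈ H m, (∀ φ ∈ H' m, x ⬝ᵥ φ = 0) → x = 0) →
    (∀ n m, ∀ φ ∈ H' n, ∀ ψ ∈ B' m, ten φ ψ ∈ H' (n + m)) →
    (∀ n m, ∀ b ∈ B (n + m), ∀ ψ ∈ B' m, ctr b ψ ∈ B n) →
    (∀ m, finrank k (B m) ≤ finrank k (B' m)) →
    (∀ m n, ∀ x ∈ B m, ∀ y ∈ B n, ten x y ∈ B (m + n)) →
    (∀ m n, ∀ x ∈ H m, ∀ y ∈ H n, ten x y ∈ H (m + n)) →
    (∀ (N : ℕ) (τ : Equiv.Perm (Fin N)), ∃ s : (Fin N → ι) → k, (∀ V, s V ≠ 0) ∧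
      (∀ b ∈ B N, act s τ b ∈ B N) ∧ (∀ b ∈ H N, act s τ b ∈ H N) ∧
      ∀ φ ∈ H' N, actR s τ φ ∈ H' N) →
    B 0 ≠ ⊥ → ∀ v : T k ι 1, v ∈ B 1 → v ≠ 0 →
    (∀ j ≥ 1, finrank k (H (2 * j + 2)) ^ 2 ≤
      finrank k (H (2 * j)) * finrank k (H (2 * j + 4))) →
    (∀ j ≥ 1, Fintype.card ι ^ (2 * j) ≤
      finrank k (B (2 * j)) * (j + 1) ^ (Fintype.card ι ^ 2)) →
    B n ≠ H n → ∀ m : ℕ, M ≤ m →
    (finrank k (B m) : ℝ) ≤ (1 / 2 + ε) * (finrank k (H m) : ℝ) := by
  classical
  rcases Nat.eq_zero_or_pos D with hD0 | hD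
  · refine ⟨0, fun k _ ι _ _ hcard H H' B B' _ _ _ _ _ _ _ _ _ _ v hv hv0 => ?_⟩
    exfalso
    apply hv0
    have h : IsEmpty ι := Fintype.card_eq_zero_iff.1 (hcard.trans hD0)
    funext V
    exact (IsEmpty.false (V 0)).elim
  rcases Nat.eq_zero_or_pos n with hn0 | hq
  · subst hn0
    refine ⟨0, fun k _ ι _ _ hcard H H' B B' hBH _ _ _ _ _ _ _ _ hB0 v hv hv0 _ _ hn => ?_⟩
    exfalso
    apply hn
    apply le_antisymm (hBH 0)
    have hcardT : ∀ m, finrank k (T k ι m) = Fintype.card ι ^ m := by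
      intro m
      rw [finrank_pi, Fintype.card_fun, Fintype.card_fin]
    have h1 : finrank k (H 0) ≤ finrank k (B 0) := by
      have h2 : 0 < finrank k (B 0) := by
        rw [Module.finrank_pos_iff]
        exact Submodule.nontrivial_iff_ne_bot.mpr hB0
      have h3 : finrank k (H 0) ≤ 1 := by
        have := Submodule.finrank_le (H 0)
        rw [hcardT, pow_zero] at this
        exact this
      omega
    exact (Submodule.eq_of_le_of_finrank_le (hBH 0) h1).ge
  have hcw := fun (δ : ℝ) (hδ : 0 < δ) (hδ1 : δ < 1) => count_words_u' D hD n hq δ hδ hδ1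
  choose! C κ hC hκ hκ1 hcw using hcw
  have hcw' := fun (δ : ℝ) (hδ : 0 < δ) (hδ1 : δ < 1) => count_words_u' D hD 1 Nat.one_pos δ hδ hδ1
  choose! C' κ' hC' hκ' hκ1' hcw' using hcw'
  obtain ⟨M, hM⟩ := taskFu D n hD C κ C' κ'
    (fun δ h h' => ⟨hC δ h h', hκ δ h h', hκ1 δ h h'⟩)
    (fun δ h h' => ⟨hC' δ h h', hκ' δ h h', hκ1' δ h h'⟩) ε hε
  refine ⟨M, ?_⟩
  intro k _ ι _ _ hcard H H' B B' hBH hnd hnd' hten hctr hdim hBten hHten hperm hB0 v hv hv0 hlog
    hlow hn m hm
  rw [hcard] at hlow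
  have hcardT : ∀ m, finrank k (T k ι m) = D ^ m := by
    intro m
    rw [finrank_pi, Fintype.card_fun, Fintype.card_fin, hcard]
  obtain ⟨φ, hφ, hφ0, hφB⟩ := exists_ann (hBH n) (hnd' n) hn
  have hmono : ∀ {G : ∀ m, Submodule k (T k ι m)},
      (∀ m, ∀ x ∈ G m, ten x v ∈ G (m + 1)) → ∀ m, finrank k (G m) ≤ finrank k (G (m + 1)) := by
    intro G hG m
    obtain ⟨V, hV⟩ : ∃ V, v V ≠ 0 := by
      by_contra h
      push Not at h
      exact hv0 (funext h)
    have hinj : Function.Injective (tenR (k := k) v m) := by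
      rw [injective_iff_map_eq_zero]
      intro z hz
      funext U
      have h1 := congrFun hz (Fin.append U V)
      change z (fun i => Fin.append U V (Fin.castAdd 1 i)) *
        v (fun i => Fin.append U V (Fin.natAdd m i)) = 0 at h1
      have h2 : (fun i => Fin.append U V (Fin.castAdd 1 i)) = U := by
        funext i; exact Fin.append_left U V i
      have h3 : (fun i => Fin.append U V (Fin.natAdd m i)) = V := by
        funext i; exact Fin.append_right U V i
      rw [h2, h3] at h1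
      exact (mul_eq_zero.mp h1).resolve_right hV
    have h1 : finrank k (G m) = finrank k ((G m).map (tenR v m)) :=
      LinearEquiv.finrank_eq (Submodule.equivMapOfInjective _ hinj _)
    rw [h1]
    apply Submodule.finrank_mono
    rintro _ ⟨x, hx, rfl⟩
    exact hG m x hx
  have hBmono := hmono (G := B) fun m x hx => hBten m 1 x hx v hv
  have hHmono := hmono (G := H) fun m x hx => hHten m 1 x hx v (hBH 1 hv)
  have hBpos : ∀ m, 0 < finrank k (B m) := by
    intro m
    induction m with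
    | zero =>
      rw [Module.finrank_pos_iff]
      exact Submodule.nontrivial_iff_ne_bot.mpr hB0
    | succ m ih => exact ih.trans_le (hBmono m)
  refine hM (fun m => finrank k (B m)) (fun m => finrank k (H m))
    (fun m => Submodule.finrank_mono (hBH m)) (fun m => (Submodule.finrank_le _).trans_eq (hcardT m))
    hBpos hlow hlog (fun m _ => hBmono m) ?_ ?_ ?_ m hm
  · intro ε hε hε1 m _
    have h := hcw ε hε hε1 k ι hcard
    have h1 := h m (n + m) (Nat.add_comm n m) (B' m) (ann (H' n) (B n))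
      (ann (H' (n + m)) (B (n + m))) (by
        intro hbot
        apply hφ0
        have : φ ∈ ann (H' n) (B n) := ⟨hφ, hφB⟩
        rw [hbot, Submodule.mem_bot] at this
        exact this) (by
        intro p c hd
        obtain ⟨τ, h1, h2⟩ := exists_plc (a := n) (b := m) p.injective c.injective hd
        obtain ⟨s, hs, hsB, -, hsH⟩ := hperm (n + m) τ.symm
        refine ⟨fun V => s (V ∘ τ), fun V => hs _, fun ψ hψ φ hφ => ?_⟩
        have h3 : actR s τ.symm (ten φ ψ) = fun V => s (V ∘ τ) * (ψ (V ∘ c) * φ (V ∘ p)) := by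
          funext V
          unfold actR ten
          rw [Equiv.symm_symm, mul_comm (ψ _)]
          congr 2
          · congr 1
            funext i
            simp [h1]
          · congr 1
            funext i
            simp [h2]
        rw [← h3]
        refine ⟨hsH _ (hten n m φ hφ.1 ψ hψ), fun b hb => ?_⟩
        rw [actR_dot, dot_ten]
        exact hφ.2 _ (hctr n m _ (hsB b hb) ψ hψ))
    have h2 := finrank_add_le (H := H (n + m)) (A := ann (H' (n + m)) (B (n + m)))
      (B := B (n + m)) (hBH _) (fun χ hχ hχ' => hnd (n + m) χ hχ.1 hχ') (fun χ hχ b hb => hχ.2 b hb)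
    have h3 : (finrank k (ann (H' (n + m)) (B (n + m))) : ℝ) + finrank k (B (n + m)) ≤
        finrank k (H (n + m)) := by exact_mod_cast h2
    have h4 : (finrank k (B m) : ℝ) ≤ finrank k (B' m) := by exact_mod_cast hdim m
    rw [Nat.add_comm m n]
    have h5 : (1 - ε) * (D : ℝ) ^ n *
        ((finrank k (B m) : ℝ) - C ε * κ ε ^ m * (D : ℝ) ^ m) ≤
        (1 - ε) * (D : ℝ) ^ n *
        ((finrank k (B' m) : ℝ) - C ε * κ ε ^ m * (D : ℝ) ^ m) := by
      have h6 : 0 ≤ (1 - ε) * (D : ℝ) ^ n :=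
        mul_nonneg (by linarith) (by positivity)
      apply mul_le_mul_of_nonneg_left _ h6
      linarith
    linarith
  · intro ε hε hε1 m _
    have h := hcw ε hε hε1 k ι hcard
    refine h m (m + n) rfl (B m) (B n) (B (m + n)) ?_ ?_
    · intro hbot
      have := hBpos n
      rw [hbot, finrank_bot] at this
      omega
    · intro p c hd
      exact ins_mem hBten (fun N τ => by
        obtain ⟨s, hs, h1, -, -⟩ := hperm N τ
        exact ⟨s, hs, h1⟩) p c hd
  · intro ε hε hε1 m _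
    have h := hcw' ε hε hε1 k ι hcard
    refine h m (m + 1) rfl (H m) (H 1) (H (m + 1)) ?_ ?_
    · intro hbot
      apply hv0
      have := hBH 1 hv
      rw [hbot, Submodule.mem_bot] at this
      exact this
    · intro p c hd
      exact ins_mem hHten (fun N τ => by
        obtain ⟨s, hs, -, h1, -⟩ := hperm N τ
        exact ⟨s, hs, h1⟩) p c hd


end Pool.Agent.K4H35.ML
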